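import Pool.Agent.Helper49.RC.St

set_option autoImplicit false

open MeasureTheory Set Filter Metric

namespace Pool.Agent.Helper29.RC

open Helper49.RC Helper97.CB Helper49.LT

/-! ### facts on `sp` -/

theorem bd_of_body {K : Set ℂ} (hK : IsBody K) : ∃ R : ℝ, 0 ≤ R ∧ ∀ z ∈ K, ‖z‖ ≤ R := by
  obtain ⟨R, hR⟩ := hK.2.1.isBounded.exists_norm_le
  exact ⟨max R 0, le_max_right _ _, fun z hz => (hR z hz).trans (le_max_left _ _)⟩

theorem re_le (z p : ℂ) : (z * (starRingEnd ℂ) p).re ≤ ‖z‖ * ‖p‖ := by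
  refine (Complex.re_le_norm _).trans ?_
  rw [norm_mul, RCLike.norm_conj]

theorem sp_bdd {K : Set ℂ} {R : ℝ} (hR : ∀ z ∈ K, ‖z‖ ≤ R) (p : ℂ) :
    BddAbove ((fun z : ℂ => (z * (starRingEnd ℂ) p).re) '' K) := by
  refine ⟨R * ‖p‖, ?_⟩
  rintro _ ⟨z, hz, rfl⟩
  exact (re_le z p).trans (mul_le_mul_of_nonneg_right (hR z hz) (norm_nonneg _))

theorem le_sp {K : Set ℂ} {R : ℝ} (hR : ∀ z ∈ K, ‖z‖ ≤ R) {z : ℂ} (hz : z ∈ K) (p : ℂ) :
    (z * (starRingEnd ℂ) p).re ≤ sp K p :=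
  le_csSup (sp_bdd hR p) ⟨z, hz, rfl⟩

theorem sp_le {K : Set ℂ} (hne : K.Nonempty) {p : ℂ} {c : ℝ}
    (h : ∀ z ∈ K, (z * (starRingEnd ℂ) p).re ≤ c) : sp K p ≤ c := by
  refine csSup_le (hne.image _) ?_
  rintro _ ⟨z, hz, rfl⟩
  exact h z hz

theorem sp_nonneg {K : Set ℂ} {R : ℝ} (hR : ∀ z ∈ K, ‖z‖ ≤ R) (h0 : (0 : ℂ) ∈ K) (p : ℂ) :
    0 ≤ sp K p := by
  have := le_sp hR h0 p
  simpa using this

theorem sp_lip {K : Set ℂ} {R : ℝ} (hR : ∀ z ∈ K, ‖z‖ ≤ R) (hne : K.Nonempty) (x y : ℂ) :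
    sp K x ≤ sp K y + R * ‖x - y‖ := by
  refine sp_le hne fun z hz => ?_
  have h1 : (z * (starRingEnd ℂ) x).re = (z * (starRingEnd ℂ) y).re
      + (z * (starRingEnd ℂ) (x - y)).re := by
    rw [← Complex.add_re, map_sub]
    congr 1
    ring
  rw [h1]
  refine add_le_add (le_sp hR hz y) ((re_le z _).trans ?_)
  exact mul_le_mul_of_nonneg_right (hR z hz) (norm_nonneg _)

theorem sp_cont {K : Set ℂ} {R : ℝ} (hR : ∀ z ∈ K, ‖z‖ ≤ R) (hne : K.Nonempty) :
    Continuous (sp K) := by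
  have hR0 : 0 ≤ R := by
    obtain ⟨z, hz⟩ := hne
    exact (norm_nonneg z).trans (hR z hz)
  have h : LipschitzWith (Real.toNNReal R) (sp K) := by
    refine LipschitzWith.of_le_add_mul _ fun x y => ?_
    rw [Real.coe_toNNReal R hR0, dist_eq_norm]
    exact sp_lip hR hne x y
  exact h.continuous

theorem sp_smul {K : Set ℂ} {R : ℝ} (hR : ∀ z ∈ K, ‖z‖ ≤ R) (h0 : (0 : ℂ) ∈ K) (c : ℝ)
    (hc : 0 ≤ c) (x : ℂ) : sp K ((c : ℂ) * x) = c * sp K x := by
  have hne : K.Nonempty := ⟨0, h0⟩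
  have key : ∀ (c : ℝ) (z x : ℂ), (z * (starRingEnd ℂ) ((c : ℂ) * x)).re
      = c * (z * (starRingEnd ℂ) x).re := by
    intro c z x
    rw [map_mul, Complex.conj_ofReal, ← Complex.re_ofReal_mul]
    congr 1
    ring
  apply le_antisymm
  · refine sp_le hne fun z hz => ?_
    rw [key]
    exact mul_le_mul_of_nonneg_left (le_sp hR hz x) hc
  · rcases hc.eq_or_lt with h | h
    · rw [← h, zero_mul]
      exact sp_nonneg hR h0 _
    · have h1 : sp K x ≤ c⁻¹ * sp K ((c : ℂ) * x) := by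
        refine sp_le hne fun z hz => ?_
        have h2 := le_sp hR hz ((c : ℂ) * x)
        rw [key] at h2
        calc (z * (starRingEnd ℂ) x).re = c⁻¹ * (c * (z * (starRingEnd ℂ) x).re) := by
              field_simp
          _ ≤ _ := mul_le_mul_of_nonneg_left h2 (inv_nonneg.2 hc)
      calc c * sp K x ≤ c * (c⁻¹ * sp K ((c : ℂ) * x)) := mul_le_mul_of_nonneg_left h1 hc
        _ = _ := by field_simp

/-! ### the Fourier series of `h` -/

instance : Fact (0 < 2 * Real.pi) := ⟨by positivity⟩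

theorem hf_conj (K : Set ℂ) (n : ℕ) :
    (starRingEnd ℂ) (hf K n) = (1 / (2 * Real.pi) : ℂ) * ∫ t in (0 : ℝ)..(2 * Real.pi),
      (sp K (ee t) : ℂ) * ee ((n : ℝ) * t) := by
  unfold hf
  rw [map_mul, ← intervalIntegral.intervalIntegral_conj]
  congr 1
  · have h1 : (1 / (2 * Real.pi) : ℂ) = ((1 / (2 * Real.pi) : ℝ) : ℂ) := by
      push_cast
      rfl
    rw [h1, Complex.conj_ofReal]
  · refine intervalIntegral.integral_congr fun t _ => ?_
    simp only [map_mul, Complex.conj_ofReal]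
    rw [← ee_neg]
    congr 2
    ring

/-- summability of the coefficients -/
theorem sum_hf {K : Set ℂ} (h : Summable (fun n : ℕ => ((n : ℝ) ^ 2) * ‖hf K n‖ ^ 2)) :
    Summable (fun n : ℕ => ‖hf K n‖) := by
  have h1 : Summable (fun n : ℕ => 1 / ((n : ℝ)) ^ 2) :=
    Real.summable_one_div_nat_pow.2 (by norm_num)
  have h2 := (h1.add h).mul_left (1 / 2)
  refine Summable.of_norm_bounded_eventually_nat h2 ?_
  filter_upwards [eventually_ge_atTop 1] with n hn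
  rw [norm_norm]
  have hn' : (1 : ℝ) ≤ n := by exact_mod_cast hn
  have hn0 : (n : ℝ) ≠ 0 := by positivity
  have h3 : 0 ≤ (1 / (n : ℝ) - n * ‖hf K n‖) ^ 2 := sq_nonneg _
  have h4 : (1 / (n : ℝ) - n * ‖hf K n‖) ^ 2 = 1 / (n : ℝ) ^ 2 + (n : ℝ) ^ 2 * ‖hf K n‖ ^ 2
      - 2 * ‖hf K n‖ := by
    field_simp
    ring
  rw [h4] at h3
  linarith

theorem hasSum_h {K : Set ℂ} {R : ℝ} (hR : ∀ z ∈ K, ‖z‖ ≤ R) (h0 : (0 : ℂ) ∈ K)
    (hs : Summable (fun n : ℕ => ‖hf K n‖)) (t : ℝ) :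
    HasSum (fun n : ℕ => 2 * (hf K n * ee ((n : ℝ) * t)).re) (sp K (ee t) + (hf K 0).re) := by
  have hc : Continuous (fun t : ℝ => (sp K (ee t) : ℂ)) :=
    Complex.continuous_ofReal.comp ((sp_cont hR ⟨0, h0⟩).comp continuous_ee)
  have hp : Function.Periodic (fun t : ℝ => (sp K (ee t) : ℂ)) (2 * Real.pi) := by
    intro t
    simp only [ee_per]
  have hcont : Continuous (hp.lift : AddCircle (2 * Real.pi) → ℂ) :=
    continuous_coinduced_dom.2 hc
  let f : C(AddCircle (2 * Real.pi), ℂ) := ⟨_, hcont⟩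
  have hcoe : ∀ x : ℝ, f (x : AddCircle (2 * Real.pi)) = (sp K (ee x) : ℂ) := fun x => rfl
  have hfou : ∀ (n : ℤ) (x : ℝ), fourier n (x : AddCircle (2 * Real.pi)) = ee ((n : ℝ) * x) := by
    intro n x
    rw [fourier_coe_apply]
    unfold ee
    congr 1
    have : (Real.pi : ℂ) ≠ 0 := by exact_mod_cast Real.pi_ne_zero
    push_cast
    field_simp
  have hco : ∀ n : ℤ, fourierCoeff f n = (1 / (2 * Real.pi) : ℂ) * ∫ x in (0 : ℝ)..(2 * Real.pi),
      (sp K (ee x) : ℂ) * ee (-(n : ℝ) * x) := by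
    intro n
    rw [fourierCoeff_eq_intervalIntegral _ n 0, zero_add, Complex.real_smul]
    congr 1
    · push_cast
      rfl
    · refine intervalIntegral.integral_congr fun x _ => ?_
      simp only [smul_eq_mul]
      rw [hfou, hcoe, mul_comm]
      push_cast
      rfl
  have hn1 : ∀ n : ℕ, fourierCoeff f (n : ℤ) = hf K n := by
    intro n
    rw [hco]
    rfl
  have hn2 : ∀ n : ℕ, fourierCoeff f (-(n : ℤ)) = (starRingEnd ℂ) (hf K n) := by
    intro n
    rw [hco, hf_conj]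
    congr 1
    refine intervalIntegral.integral_congr fun x _ => ?_
    show (sp K (ee x) : ℂ) * ee (-((-(n : ℤ) : ℤ) : ℝ) * x) = _
    push_cast
    rw [neg_neg]
  have hsum : Summable (fourierCoeff f) := by
    refine Summable.of_norm ?_
    refine Summable.of_nat_of_neg ?_ ?_
    · simp only [hn1]
      exact hs
    · simp only [hn2, RCLike.norm_conj]
      exact hs
  have h2 := has_pointwise_sum_fourier_series_of_summable hsum (t : AddCircle (2 * Real.pi))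
  have h3 := h2.nat_add_neg
  have h4 := Complex.reCLM.hasSum h3
  rw [hcoe] at h4
  have e0 : fourierCoeff f (0 : ℤ) = hf K 0 := hn1 0
  have e1 : Complex.reCLM ((sp K (ee t) : ℂ) + fourierCoeff f (0 : ℤ) • fourier (0 : ℤ)
      (t : AddCircle (2 * Real.pi))) = sp K (ee t) + (hf K 0).re := by
    rw [e0, fourier_zero]
    simp
  rw [e1] at h4
  refine h4.congr_fun fun n => ?_
  show 2 * (hf K n * ee ((n : ℝ) * t)).re = (fourierCoeff f (n : ℤ) • fourier (n : ℤ)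
      (t : AddCircle (2 * Real.pi)) + fourierCoeff f (-(n : ℤ)) • fourier (-(n : ℤ))
      (t : AddCircle (2 * Real.pi))).re
  rw [hn1, hn2, hfou, hfou, smul_eq_mul, smul_eq_mul, Complex.add_re]
  have e2 : ee (((-(n : ℤ) : ℤ) : ℝ) * t) = (starRingEnd ℂ) (ee ((n : ℝ) * t)) := by
    rw [← ee_neg]
    congr 1
    push_cast
    ring
  rw [e2, ← map_mul, Complex.conj_re]
  push_cast
  ring

theorem nn_eq (n : ℕ) (z : ℂ) : (starRingEnd ℂ) (nn n z) = (‖z‖ : ℂ) * ee ((n : ℝ) * z.arg) := by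
  by_cases hz : z = 0
  · subst hz
    simp [nn]
  have hz' : (‖z‖ : ℂ) ≠ 0 := by
    rw [Ne, Complex.ofReal_eq_zero, norm_eq_zero]
    exact hz
  have h1 : (‖z‖ : ℂ) * ee z.arg = z := Complex.norm_mul_exp_arg_mul_I z
  have h2 : z / (‖z‖ : ℂ) = ee z.arg := by
    rw [div_eq_iff hz', mul_comm, h1]
  unfold nn
  rw [map_mul, map_pow, map_div₀, Complex.conj_ofReal, Complex.conj_conj, h2]
  congr 1
  have := ee_int_mul (n : ℤ) z.arg
  rw [zpow_natCast] at this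
  rw [← this]
  push_cast
  rfl

theorem norm_nn (n : ℕ) (z : ℂ) : ‖nn n z‖ ≤ ‖z‖ := by
  rw [← RCLike.norm_conj, nn_eq, norm_mul, norm_ee, mul_one, Complex.norm_real, norm_norm]

theorem hasSum_sp {K : Set ℂ} {R : ℝ} (hR : ∀ z ∈ K, ‖z‖ ≤ R) (h0 : (0 : ℂ) ∈ K)
    (hs : Summable (fun n : ℕ => ‖hf K n‖)) (z : ℂ) :
    HasSum (fun n : ℕ => 2 * (hf K n * (starRingEnd ℂ) (nn n z)).re)
      (sp K z + (hf K 0).re * ‖z‖) := by
  have h := (hasSum_h hR h0 hs z.arg).mul_left ‖z‖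
  have h1 : (‖z‖ : ℂ) * ee z.arg = z := Complex.norm_mul_exp_arg_mul_I z
  have h2 : ‖z‖ * (sp K (ee z.arg) + (hf K 0).re) = sp K z + (hf K 0).re * ‖z‖ := by
    rw [mul_add, ← sp_smul hR h0 _ (norm_nonneg z), h1]
    ring
  rw [h2] at h
  refine h.congr_fun fun n => ?_
  rw [nn_eq]
  have : hf K n * ((‖z‖ : ℂ) * ee ((n : ℝ) * z.arg)) = (‖z‖ : ℂ) * (hf K n * ee ((n : ℝ) * z.arg)) := by
    ring
  rw [this, Complex.re_ofReal_mul]
  ring


/-! ### bounds and measurability of the edges -/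

theorem norm_om : ‖om‖ = 1 := norm_ee _

theorem beta_le {β P : ℝ → ℂ} (h : Adm β P) (t : ℝ) : ‖β t‖ ≤ 3 / 2 := by
  have h1 := h.bdb t
  nlinarith [norm_nonneg (β t)]

theorem f1_le (b p : ℂ) : ‖f1 b p‖ ≤ 1 + ‖b‖ + ‖p‖ := by
  unfold f1
  refine (norm_add_le _ _).trans (add_le_add_left ((norm_add_le _ _).trans ?_) _)
  rw [norm_mul, RCLike.norm_conj, norm_om, one_mul]

theorem f2_le (b p : ℂ) : ‖f2 b p‖ ≤ 1 + ‖b‖ + ‖p‖ := by
  unfold f2
  refine (norm_sub_le _ _).trans (add_le_add_left ((norm_add_le _ _).trans ?_) _)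
  rw [norm_mul, norm_pow, norm_pow, RCLike.norm_conj, norm_om, one_pow, one_mul]

theorem P_le {β P : ℝ → ℂ} (h : Adm β P) (t : ℝ) : ‖P t‖ ≤ 5 / 2 := by
  obtain ⟨x, y, hxy, hp⟩ := h.reg t
  have hb := beta_le h t
  have h1 := f1_le (β t) 0
  have h2 := f2_le (β t) 0
  rw [norm_zero, add_zero] at h1 h2
  have h3 : ‖f1 (β t) 0‖ ≤ 5 / 2 := by linarith
  have h4 : ‖f2 (β t) 0‖ ≤ 5 / 2 := by linarith
  calc ‖P t‖ ≤ ‖(x : ℂ) * f1 (β t) 0‖ + ‖(y : ℂ) * f2 (β t) 0‖ := by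
        rw [hp]; exact norm_add_le _ _
    _ = |x| * ‖f1 (β t) 0‖ + |y| * ‖f2 (β t) 0‖ := by
        rw [norm_mul, norm_mul, Complex.norm_real, Complex.norm_real, Real.norm_eq_abs,
          Real.norm_eq_abs]
    _ ≤ |x| * (5 / 2) + |y| * (5 / 2) :=
        add_le_add (mul_le_mul_of_nonneg_left h3 (abs_nonneg x))
          (mul_le_mul_of_nonneg_left h4 (abs_nonneg y))
    _ ≤ 5 / 2 := by linarith

/-- the edges -/
noncomputable def z0 (β : ℝ → ℂ) (t : ℝ) : ℂ := ee t * f0 (β t)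
noncomputable def z1 (β P : ℝ → ℂ) (t : ℝ) : ℂ := ee t * f1 (β t) (P t)
noncomputable def z2 (β P : ℝ → ℂ) (t : ℝ) : ℂ := ee t * f2 (β t) (P t)

theorem z0_le {β P : ℝ → ℂ} (h : Adm β P) (t : ℝ) : ‖z0 β t‖ ≤ 5 := by
  have hb := beta_le h t
  unfold z0 f0
  rw [norm_mul, norm_ee, one_mul]
  have := norm_add_le (1 : ℂ) (β t)
  rw [norm_one] at this
  linarith

theorem z1_le {β P : ℝ → ℂ} (h : Adm β P) (t : ℝ) : ‖z1 β P t‖ ≤ 5 := by
  have hb := beta_le h t
  have hp := P_le h t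
  have := f1_le (β t) (P t)
  unfold z1
  rw [norm_mul, norm_ee, one_mul]
  linarith

theorem z2_le {β P : ℝ → ℂ} (h : Adm β P) (t : ℝ) : ‖z2 β P t‖ ≤ 5 := by
  have hb := beta_le h t
  have hp := P_le h t
  have := f2_le (β t) (P t)
  unfold z2
  rw [norm_mul, norm_ee, one_mul]
  linarith

theorem z0_meas {β P : ℝ → ℂ} (h : Adm β P) : Measurable (z0 β) := by
  have h1 := continuous_ee.measurable
  have h2 := h.mb
  unfold z0 f0
  fun_prop

theorem z1_meas {β P : ℝ → ℂ} (h : Adm β P) : Measurable (z1 β P) := by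
  have h1 := continuous_ee.measurable
  have h2 := h.mb
  have h3 := h.mp
  unfold z1 f1
  fun_prop

theorem z2_meas {β P : ℝ → ℂ} (h : Adm β P) : Measurable (z2 β P) := by
  have h1 := continuous_ee.measurable
  have h2 := h.mb
  have h3 := h.mp
  unfold z2 f2
  fun_prop

theorem nn_meas (n : ℕ) : Measurable (nn n) := by
  have h1 : Measurable (fun z : ℂ => (‖z‖ : ℂ)) := Complex.measurable_ofReal.comp measurable_norm
  have h2 : Measurable (fun z : ℂ => (starRingEnd ℂ) z) := Complex.continuous_conj.measurable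
  unfold nn
  exact h1.mul ((h2.div h1).pow_const n)

/-- sum of the moments of the edges -/
noncomputable def EE (β P : ℝ → ℂ) (n : ℕ) (t : ℝ) : ℂ :=
  nn n (z0 β t) + nn n (z1 β P t) + nn n (z2 β P t)

theorem EE_meas {β P : ℝ → ℂ} (h : Adm β P) (n : ℕ) : Measurable (EE β P n) :=
  (((nn_meas n).comp (z0_meas h)).add ((nn_meas n).comp (z1_meas h))).add
    ((nn_meas n).comp (z2_meas h))

theorem EE_le {β P : ℝ → ℂ} (h : Adm β P) (n : ℕ) (t : ℝ) : ‖EE β P n t‖ ≤ 15 := by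
  have h0 := (norm_nn n (z0 β t)).trans (z0_le h t)
  have h1 := (norm_nn n (z1 β P t)).trans (z1_le h t)
  have h2 := (norm_nn n (z2 β P t)).trans (z2_le h t)
  have h3 := norm_add_le (nn n (z0 β t) + nn n (z1 β P t)) (nn n (z2 β P t))
  have h4 := norm_add_le (nn n (z0 β t)) (nn n (z1 β P t))
  unfold EE
  linarith

theorem ii_bdd {E : Type} [NormedAddCommGroup E] {f : ℝ → E} {C a b : ℝ}
    (hm : AEStronglyMeasurable f volume) (hC : ∀ t, ‖f t‖ ≤ C) :
    IntervalIntegrable f volume a b :=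
  (intervalIntegrable_const (c := C)).mono_fun' hm.restrict (ae_of_all _ hC)

theorem EE_ii {β P : ℝ → ℂ} (h : Adm β P) (n : ℕ) (a b : ℝ) :
    IntervalIntegrable (EE β P n) volume a b :=
  ii_bdd (EE_meas h n).aestronglyMeasurable (EE_le h n)

theorem sg_eq (β P : ℝ → ℂ) (n : ℕ) :
    sg β P n = (1 / (2 * Real.pi) : ℂ) * ∫ t in (0 : ℝ)..(2 * Real.pi), EE β P n t := rfl

theorem sg_le {β P : ℝ → ℂ} (h : Adm β P) (n : ℕ) : ‖sg β P n‖ ≤ 15 := by
  have hpi := Real.pi_pos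
  rw [sg_eq, norm_mul]
  have h1 := intervalIntegral.norm_integral_le_of_norm_le_const (a := 0) (b := 2 * Real.pi)
    (f := EE β P n) (C := 15) (fun t _ => EE_le h n t)
  rw [sub_zero, abs_of_pos (by positivity)] at h1
  have h2 : ‖(1 / (2 * Real.pi) : ℂ)‖ = 1 / (2 * Real.pi) := by
    have : (1 / (2 * Real.pi) : ℂ) = ((1 / (2 * Real.pi) : ℝ) : ℂ) := by push_cast; rfl
    rw [this, Complex.norm_real, Real.norm_of_nonneg (by positivity)]
  rw [h2]
  calc 1 / (2 * Real.pi) * ‖∫ t in (0 : ℝ)..(2 * Real.pi), EE β P n t‖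
      ≤ 1 / (2 * Real.pi) * (15 * (2 * Real.pi)) := mul_le_mul_of_nonneg_left h1 (by positivity)
    _ = 15 := by field_simp

/-! ### the moment of order one -/

theorem nn_one (z : ℂ) : nn 1 z = (starRingEnd ℂ) z := by
  unfold nn
  rw [pow_one]
  by_cases hz : z = 0
  · subst hz; simp
  · have hz' : (‖z‖ : ℂ) ≠ 0 := by
      rw [Ne, Complex.ofReal_eq_zero, norm_eq_zero]
      exact hz
    field_simp

theorem EE_one (β P : ℝ → ℂ) (t : ℝ) : EE β P 1 t = (starRingEnd ℂ) (ee t * ((1 + om + om ^ 2)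
    + (1 + (starRingEnd ℂ) om + (starRingEnd ℂ) om ^ 2) * β t)) := by
  unfold EE z0 z1 z2
  rw [nn_one, nn_one, nn_one, ← map_add, ← map_add]
  congr 1
  unfold f0 f1 f2
  ring

theorem sg_one {β P : ℝ → ℂ} (h : Adm β P) : sg β P 1 = 0 := by
  rw [sg_eq]
  have h1 : ∀ t, EE β P 1 (t + Real.pi) = - EE β P 1 t := by
    intro t
    rw [EE_one, EE_one, h.perb, ee_add, ee_pi, ← map_neg]
    congr 1
    ring
  have h2 := intervalIntegral.integral_add_adjacent_intervals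
    (EE_ii h 1 0 Real.pi) (EE_ii h 1 Real.pi (2 * Real.pi))
  have h3 := intervalIntegral.integral_comp_add_right (a := 0) (b := Real.pi)
    (EE β P 1) Real.pi
  simp only [h1] at h3
  rw [intervalIntegral.integral_neg, zero_add, ← two_mul] at h3
  rw [← h2, ← h3, add_neg_cancel, mul_zero]

theorem sg_zero {β P : ℝ → ℂ} : ∃ s : ℝ, 0 ≤ s ∧ sg β P 0 = (s : ℂ) ∧
    s = 1 / (2 * Real.pi) * ∫ t in (0 : ℝ)..(2 * Real.pi),
      (‖z0 β t‖ + ‖z1 β P t‖ + ‖z2 β P t‖) := by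
  have hpi := Real.pi_pos
  refine ⟨_, ?_, ?_, rfl⟩
  · refine mul_nonneg (by positivity) ?_
    refine intervalIntegral.integral_nonneg (by positivity) fun t _ => ?_
    positivity
  · rw [sg_eq]
    have h1 : ∀ t, EE β P 0 t = ((‖z0 β t‖ + ‖z1 β P t‖ + ‖z2 β P t‖ : ℝ) : ℂ) := by
      intro t
      unfold EE nn
      simp only [pow_zero, mul_one]
      push_cast
      rfl
    simp only [h1]
    rw [intervalIntegral.integral_ofReal]
    push_cast
    rfl

theorem hf_zero {K : Set ℂ} {R : ℝ} (hR : ∀ z ∈ K, ‖z‖ ≤ R) (h0 : (0 : ℂ) ∈ K) :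
    ∃ a : ℝ, 0 ≤ a ∧ hf K 0 = (a : ℂ) := by
  have hpi := Real.pi_pos
  refine ⟨1 / (2 * Real.pi) * ∫ t in (0 : ℝ)..(2 * Real.pi), sp K (ee t), ?_, ?_⟩
  · refine mul_nonneg (by positivity) ?_
    exact intervalIntegral.integral_nonneg (by positivity) fun t _ => sp_nonneg hR h0 _
  · unfold hf
    simp only [Nat.cast_zero, neg_zero, zero_mul, ee_zero, mul_one]
    rw [intervalIntegral.integral_ofReal]
    push_cast
    rfl

/-! ### the mixed area -/

theorem sp_le_norm {K : Set ℂ} {R : ℝ} (hR : ∀ z ∈ K, ‖z‖ ≤ R) (hne : K.Nonempty) (p : ℂ) :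
    sp K p ≤ R * ‖p‖ :=
  sp_le hne fun z hz => (re_le z p).trans (mul_le_mul_of_nonneg_right (hR z hz) (norm_nonneg _))

theorem hasSum_VV {K : Set ℂ} {R : ℝ} (hR : ∀ z ∈ K, ‖z‖ ≤ R) (h0 : (0 : ℂ) ∈ K)
    (hs : Summable (fun n : ℕ => ‖hf K n‖)) {β P : ℝ → ℂ} (h : Adm β P) {s : ℝ}
    (hs0 : s = 1 / (2 * Real.pi) * ∫ t in (0 : ℝ)..(2 * Real.pi),
      (‖z0 β t‖ + ‖z1 β P t‖ + ‖z2 β P t‖)) :
    HasSum (fun n : ℕ => 2 * (hf K n * (starRingEnd ℂ) (sg β P n)).re)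
      (VV K β P + (hf K 0).re * s) := by
  have hpi := Real.pi_pos
  have hne : K.Nonempty := ⟨0, h0⟩
  have hR0 : 0 ≤ R := (norm_nonneg _).trans (hR 0 h0)
  have hspm : Measurable (sp K) := (sp_cont hR hne).measurable
  -- pointwise
  have hpt : ∀ t, HasSum (fun n : ℕ => 2 * (hf K n * (starRingEnd ℂ) (EE β P n t)).re)
      ((sp K (z0 β t) + sp K (z1 β P t) + sp K (z2 β P t))
        + (hf K 0).re * (‖z0 β t‖ + ‖z1 β P t‖ + ‖z2 β P t‖)) := by
    intro t
    have h1 := ((hasSum_sp hR h0 hs (z0 β t)).add (hasSum_sp hR h0 hs (z1 β P t))).add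
      (hasSum_sp hR h0 hs (z2 β P t))
    have h2 : sp K (z0 β t) + (hf K 0).re * ‖z0 β t‖ + (sp K (z1 β P t) + (hf K 0).re * ‖z1 β P t‖)
        + (sp K (z2 β P t) + (hf K 0).re * ‖z2 β P t‖)
        = (sp K (z0 β t) + sp K (z1 β P t) + sp K (z2 β P t))
        + (hf K 0).re * (‖z0 β t‖ + ‖z1 β P t‖ + ‖z2 β P t‖) := by ring
    rw [h2] at h1
    refine h1.congr_fun fun n => ?_
    unfold EE
    rw [map_add, map_add, mul_add, mul_add, Complex.add_re, Complex.add_re]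
    ring
  have hFm : ∀ n, Measurable (fun t => 2 * (hf K n * (starRingEnd ℂ) (EE β P n t)).re) := by
    intro n
    have h1 := EE_meas h n
    have h2 : Measurable (fun t => (starRingEnd ℂ) (EE β P n t)) :=
      Complex.continuous_conj.measurable.comp h1
    exact (Complex.measurable_re.comp (h2.const_mul (hf K n))).const_mul 2
  have hFb : ∀ n t, ‖2 * (hf K n * (starRingEnd ℂ) (EE β P n t)).re‖ ≤ 30 * ‖hf K n‖ := by
    intro n t
    rw [norm_mul, Real.norm_of_nonneg (by norm_num : (0 : ℝ) ≤ 2), Real.norm_eq_abs]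
    have h1 := Complex.abs_re_le_norm (hf K n * (starRingEnd ℂ) (EE β P n t))
    rw [norm_mul, RCLike.norm_conj] at h1
    have h2 := mul_le_mul_of_nonneg_left (EE_le h n t) (norm_nonneg (hf K n))
    linarith
  have hint := intervalIntegral.hasSum_integral_of_dominated_convergence (μ := volume)
    (a := 0) (b := 2 * Real.pi)
    (F := fun (n : ℕ) t => 2 * (hf K n * (starRingEnd ℂ) (EE β P n t)).re)
    (f := fun t => (sp K (z0 β t) + sp K (z1 β P t) + sp K (z2 β P t))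
        + (hf K 0).re * (‖z0 β t‖ + ‖z1 β P t‖ + ‖z2 β P t‖))
    (fun n _ => 30 * ‖hf K n‖)
    (fun n => (hFm n).aestronglyMeasurable)
    (fun n => ae_of_all _ fun t _ => hFb n t)
    (ae_of_all _ fun t _ => hs.mul_left 30)
    intervalIntegrable_const
    (ae_of_all _ fun t _ => hpt t)
  have hint2 := hint.mul_left (1 / (2 * Real.pi))
  -- the value
  have hi1 : IntervalIntegrable (fun t => sp K (z0 β t) + sp K (z1 β P t) + sp K (z2 β P t))
      volume 0 (2 * Real.pi) := by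
    refine ii_bdd (C := 15 * R) ?_ ?_
    · exact (((hspm.comp (z0_meas h)).add (hspm.comp (z1_meas h))).add
        (hspm.comp (z2_meas h))).aestronglyMeasurable
    · intro t
      rw [Real.norm_of_nonneg (add_nonneg (add_nonneg (sp_nonneg hR h0 _) (sp_nonneg hR h0 _))
        (sp_nonneg hR h0 _))]
      have a0 := (sp_le_norm hR hne (z0 β t)).trans (mul_le_mul_of_nonneg_left (z0_le h t) hR0)
      have a1 := (sp_le_norm hR hne (z1 β P t)).trans (mul_le_mul_of_nonneg_left (z1_le h t) hR0)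
      have a2 := (sp_le_norm hR hne (z2 β P t)).trans (mul_le_mul_of_nonneg_left (z2_le h t) hR0)
      linarith
  have hi2 : IntervalIntegrable (fun t => ‖z0 β t‖ + ‖z1 β P t‖ + ‖z2 β P t‖)
      volume 0 (2 * Real.pi) := by
    refine ii_bdd (C := 15) ?_ ?_
    · exact (((z0_meas h).norm.add (z1_meas h).norm).add (z2_meas h).norm).aestronglyMeasurable
    · intro t
      rw [Real.norm_of_nonneg (by positivity)]
      have a0 := z0_le h t
      have a1 := z1_le h t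
      have a2 := z2_le h t
      linarith
  have hval : 1 / (2 * Real.pi) * (∫ t in (0 : ℝ)..(2 * Real.pi),
      ((sp K (z0 β t) + sp K (z1 β P t) + sp K (z2 β P t))
        + (hf K 0).re * (‖z0 β t‖ + ‖z1 β P t‖ + ‖z2 β P t‖)))
      = VV K β P + (hf K 0).re * s := by
    rw [intervalIntegral.integral_add hi1 (hi2.const_mul _), intervalIntegral.integral_const_mul,
      hs0]
    unfold VV z0 z1 z2
    ring
  rw [hval] at hint2
  refine hint2.congr_fun fun n => ?_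
  -- the terms
  have hi3 : IntervalIntegrable (fun t => hf K n * (starRingEnd ℂ) (EE β P n t))
      volume 0 (2 * Real.pi) := by
    refine ii_bdd (C := ‖hf K n‖ * 15) ?_ ?_
    · exact ((Complex.continuous_conj.measurable.comp (EE_meas h n)).const_mul
        _).aestronglyMeasurable
    · intro t
      rw [norm_mul, RCLike.norm_conj]
      exact mul_le_mul_of_nonneg_left (EE_le h n t) (norm_nonneg _)
  have h5 := Complex.reCLM.intervalIntegral_comp_comm hi3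
  have h6 : ∫ t in (0 : ℝ)..(2 * Real.pi), 2 * (hf K n * (starRingEnd ℂ) (EE β P n t)).re
      = 2 * (hf K n * (starRingEnd ℂ) (∫ t in (0 : ℝ)..(2 * Real.pi), EE β P n t)).re := by
    rw [intervalIntegral.integral_const_mul]
    congr 1
    refine h5.trans ?_
    rw [intervalIntegral.integral_const_mul, intervalIntegral.intervalIntegral_conj]
    rfl
  rw [h6, sg_eq, map_mul]
  have h7 : (starRingEnd ℂ) (1 / (2 * Real.pi) : ℂ) = ((1 / (2 * Real.pi) : ℝ) : ℂ) := by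
    have h1 : (1 / (2 * Real.pi) : ℂ) = ((1 / (2 * Real.pi) : ℝ) : ℂ) := by
      push_cast
      rfl
    rw [h1, Complex.conj_ofReal]
  rw [h7]
  have h8 : hf K n * (((1 / (2 * Real.pi) : ℝ) : ℂ) *
      (starRingEnd ℂ) (∫ t in (0 : ℝ)..(2 * Real.pi), EE β P n t))
      = ((1 / (2 * Real.pi) : ℝ) : ℂ) * (hf K n *
      (starRingEnd ℂ) (∫ t in (0 : ℝ)..(2 * Real.pi), EE β P n t)) := by ring
  rw [h8, Complex.re_ofReal_mul]
  ring

/-! ### Cauchy-Schwarz and Aczel -/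

theorem cs_tsum {r f g : ℕ → ℝ} {W : ℝ} (hr : HasSum r W) (hf : Summable f) (hg : Summable g)
    (hf0 : ∀ n, 0 ≤ f n) (hg0 : ∀ n, 0 ≤ g n) (h : ∀ n, r n ^ 2 ≤ f n * g n) :
    W ^ 2 ≤ (∑' n, f n) * ∑' n, g n := by
  have h1 : Tendsto (fun N : ℕ => (∑ i ∈ Finset.range N, r i) ^ 2) atTop (nhds (W ^ 2)) :=
    (hr.tendsto_sum_nat).pow 2
  refine le_of_tendsto' h1 fun N => ?_
  have h2 : ∀ i, |r i| ≤ Real.sqrt (f i) * Real.sqrt (g i) := by
    intro i
    rw [← Real.sqrt_mul (hf0 i)]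
    exact Real.abs_le_sqrt (h i)
  have h3 : |∑ i ∈ Finset.range N, r i| ≤ ∑ i ∈ Finset.range N, Real.sqrt (f i) * Real.sqrt (g i) :=
    (Finset.abs_sum_le_sum_abs _ _).trans (Finset.sum_le_sum fun i _ => h2 i)
  have h4 : (∑ i ∈ Finset.range N, r i) ^ 2
      ≤ (∑ i ∈ Finset.range N, Real.sqrt (f i) * Real.sqrt (g i)) ^ 2 := by
    rw [← sq_abs]
    exact pow_le_pow_left₀ (abs_nonneg _) h3 2
  refine h4.trans ((Finset.sum_mul_sq_le_sq_mul_sq _ _ _).trans ?_)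
  have e1 : ∑ i ∈ Finset.range N, Real.sqrt (f i) ^ 2 = ∑ i ∈ Finset.range N, f i :=
    Finset.sum_congr rfl fun i _ => Real.sq_sqrt (hf0 i)
  have e2 : ∑ i ∈ Finset.range N, Real.sqrt (g i) ^ 2 = ∑ i ∈ Finset.range N, g i :=
    Finset.sum_congr rfl fun i _ => Real.sq_sqrt (hg0 i)
  rw [e1, e2]
  exact mul_le_mul (hf.sum_le_tsum _ fun i _ => hf0 i) (hg.sum_le_tsum _ fun i _ => hg0 i)
    (Finset.sum_nonneg fun i _ => hg0 i) (tsum_nonneg hf0)

theorem aczel {a s W X Y A p : ℝ} (ha : 0 ≤ a) (hs : 0 ≤ s) (hX : 0 ≤ X) (hY : 0 ≤ Y)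
    (hW : W ^ 2 ≤ X * Y) (hA : 0 ≤ A) (hp : 0 < p) (h1 : A ≤ p * (a ^ 2 - X)) :
    A * (s ^ 2 - Y) ≤ p * (a * s + W) ^ 2 := by
  rcases le_or_gt (s ^ 2 - Y) 0 with h2 | h2
  · calc A * (s ^ 2 - Y) ≤ 0 := mul_nonpos_of_nonneg_of_nonpos hA h2
      _ ≤ _ := by positivity
  obtain ⟨x, hx⟩ : ∃ x, x = Real.sqrt X := ⟨_, rfl⟩
  obtain ⟨y, hy⟩ : ∃ y, y = Real.sqrt Y := ⟨_, rfl⟩
  have hx0 : 0 ≤ x := by rw [hx]; exact Real.sqrt_nonneg _
  have hy0 : 0 ≤ y := by rw [hy]; exact Real.sqrt_nonneg _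
  have hx2 : x ^ 2 = X := by rw [hx]; exact Real.sq_sqrt hX
  have hy2 : y ^ 2 = Y := by rw [hy]; exact Real.sq_sqrt hY
  have h3 : 0 ≤ a ^ 2 - X := by
    by_contra h
    push Not at h
    have : p * (a ^ 2 - X) < 0 := mul_neg_of_pos_of_neg hp h
    linarith
  have hax : x ≤ a := by
    refine le_of_sq_le_sq ?_ ha
    linarith
  have hsy : y ≤ s := by
    refine le_of_sq_le_sq ?_ hs
    linarith
  have hWxy : |W| ≤ x * y := by
    refine abs_le_of_sq_le_sq ?_ (mul_nonneg hx0 hy0)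
    rw [mul_pow, hx2, hy2]
    exact hW
  have h4 : x * y ≤ a * s := mul_le_mul hax hsy hy0 ha
  have h5 : -(x * y) ≤ W := (abs_le.1 hWxy).1
  have h6 : (a * s - x * y) ^ 2 ≤ (a * s + W) ^ 2 :=
    pow_le_pow_left₀ (by linarith) (by linarith) 2
  have h7 : (a * s - x * y) ^ 2 = (a ^ 2 - X) * (s ^ 2 - Y) + (a * y - s * x) ^ 2 := by
    rw [← hx2, ← hy2]
    ring
  have h8 : (a ^ 2 - X) * (s ^ 2 - Y) ≤ (a * s + W) ^ 2 := by
    have := sq_nonneg (a * y - s * x)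
    linarith
  calc A * (s ^ 2 - Y) ≤ p * (a ^ 2 - X) * (s ^ 2 - Y) :=
        mul_le_mul_of_nonneg_right h1 h2.le
    _ = p * ((a ^ 2 - X) * (s ^ 2 - Y)) := by ring
    _ ≤ _ := mul_le_mul_of_nonneg_left h8 hp.le

/-! ### the module -/

theorem hMIX (h : StHfo) : StMix := by
  intro K β P hK h0i h2 hA
  have hpi := Real.pi_pos
  have h0 : (0 : ℂ) ∈ K := interior_subset h0i
  obtain ⟨R, hR0, hR⟩ := bd_of_body hK
  obtain ⟨hsum, har⟩ := h K hK h0i
  have hs := sum_hf hsum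
  obtain ⟨a, ha0, ha⟩ := hf_zero (R := R) hR h0
  obtain ⟨s, hs0, hsg, hsv⟩ := sg_zero (β := β) (P := P)
  have hVV := hasSum_VV hR h0 hs hA hsv
  have hVV3 := (hasSum_nat_add_iff' 3).2 hVV
  have hare : (hf K 0).re = a := by rw [ha, Complex.ofReal_re]
  -- the first three terms
  have e3 : VV K β P + (hf K 0).re * s - ∑ i ∈ Finset.range 3,
      2 * (hf K i * (starRingEnd ℂ) (sg β P i)).re = VV K β P - a * s := by
    rw [Finset.sum_range_succ, Finset.sum_range_succ, Finset.sum_range_one, h2, sg_one hA, ha, hsg,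
      Complex.conj_ofReal, ← Complex.ofReal_mul, Complex.ofReal_re, Complex.ofReal_re]
    simp
    ring
  rw [e3] at hVV3
  -- the two series
  have hden : ∀ n : ℕ, (0 : ℝ) < ((n : ℝ) + 3) ^ 2 - 1 := by
    intro n
    have : (0 : ℝ) ≤ n := Nat.cast_nonneg n
    nlinarith
  have hf1 : Summable (fun n : ℕ => 2 * ((((n : ℝ) + 3) ^ 2 - 1) * ‖hf K (n + 3)‖ ^ 2)) := by
    have h1 := (summable_nat_add_iff 3).2 hsum
    refine Summable.mul_left 2 (Summable.of_nonneg_of_le (fun n => ?_) (fun n => ?_) h1)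
    · exact mul_nonneg (hden n).le (sq_nonneg _)
    · push_cast
      refine mul_le_mul_of_nonneg_right ?_ (sq_nonneg _)
      linarith
  have hg1 : Summable (fun n : ℕ => 2 * (‖sg β P (n + 3)‖ ^ 2 / (((n : ℝ) + 3) ^ 2 - 1))) := by
    have h1 : Summable (fun n : ℕ => 1 / (((n + 1 : ℕ) : ℝ)) ^ 2) :=
      (summable_nat_add_iff 1).2 (Real.summable_one_div_nat_pow.2 (by norm_num))
    refine Summable.mul_left 2 (Summable.of_nonneg_of_le (fun n => ?_) (fun n => ?_)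
      (h1.mul_left 225))
    · exact div_nonneg (sq_nonneg _) (hden n).le
    · have h3 : ‖sg β P (n + 3)‖ ^ 2 ≤ 225 := by
        have := pow_le_pow_left₀ (norm_nonneg _) (sg_le hA (n + 3)) 2
        linarith
      have hn : (0 : ℝ) ≤ n := Nat.cast_nonneg n
      have h4 : (((n + 1 : ℕ) : ℝ)) ^ 2 ≤ ((n : ℝ) + 3) ^ 2 - 1 := by
        push_cast
        nlinarith
      calc ‖sg β P (n + 3)‖ ^ 2 / (((n : ℝ) + 3) ^ 2 - 1) ≤ 225 / (((n : ℝ) + 3) ^ 2 - 1) :=
            div_le_div_of_nonneg_right h3 (hden n).le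
        _ ≤ 225 / (((n + 1 : ℕ) : ℝ)) ^ 2 :=
            div_le_div_of_nonneg_left (by norm_num) (by positivity) h4
        _ = _ := by rw [mul_one_div]
  have hcs := cs_tsum hVV3 hf1 hg1 (fun n => mul_nonneg (by norm_num)
    (mul_nonneg (hden n).le (sq_nonneg _))) (fun n => mul_nonneg (by norm_num)
    (div_nonneg (sq_nonneg _) (hden n).le)) (by
      intro n
      have h3 := Complex.abs_re_le_norm (hf K (n + 3) * (starRingEnd ℂ) (sg β P (n + 3)))
      rw [norm_mul, RCLike.norm_conj] at h3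
      have h4 := pow_le_pow_left₀ (abs_nonneg _) h3 2
      rw [sq_abs] at h4
      have h5 := (hden n).ne'
      calc (2 * (hf K (n + 3) * (starRingEnd ℂ) (sg β P (n + 3))).re) ^ 2
          = 4 * (hf K (n + 3) * (starRingEnd ℂ) (sg β P (n + 3))).re ^ 2 := by ring
        _ ≤ 4 * (‖hf K (n + 3)‖ * ‖sg β P (n + 3)‖) ^ 2 :=
            mul_le_mul_of_nonneg_left h4 (by norm_num)
        _ = _ := by field_simp; ring)
  rw [tsum_mul_left, tsum_mul_left] at hcs
  -- the area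
  have hX : ∑' n : ℕ, (((n : ℝ) + 1) ^ 2 - 1) * ‖hf K (n + 1)‖ ^ 2
      = ∑' n : ℕ, (((n : ℝ) + 3) ^ 2 - 1) * ‖hf K (n + 3)‖ ^ 2 := by
    have hg : Summable (fun n : ℕ => (((n : ℝ) + 1) ^ 2 - 1) * ‖hf K (n + 1)‖ ^ 2) := by
      have h1 := (summable_nat_add_iff 1).2 hsum
      refine Summable.of_nonneg_of_le (fun n => ?_) (fun n => ?_) h1
      · refine mul_nonneg ?_ (sq_nonneg _)
        have : (0 : ℝ) ≤ n := Nat.cast_nonneg n
        nlinarith
      · push_cast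
        refine mul_le_mul_of_nonneg_right ?_ (sq_nonneg _)
        linarith
    rw [← hg.sum_add_tsum_nat_add 2, Finset.sum_range_succ, Finset.sum_range_one]
    have e1 : hf K (1 + 1) = 0 := h2
    rw [e1]
    simp only [Nat.cast_zero, norm_zero]
    have e2 : ∀ n : ℕ, ((((n + 2 : ℕ) : ℝ) + 1) ^ 2 - 1) * ‖hf K (n + 2 + 1)‖ ^ 2
        = (((n : ℝ) + 3) ^ 2 - 1) * ‖hf K (n + 3)‖ ^ 2 := by
      intro n
      push_cast
      ring
    simp only [e2]
    norm_num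
  rw [hX] at har
  have hna : ‖hf K 0‖ = a := by rw [ha, Complex.norm_real, Real.norm_of_nonneg ha0]
  have hns : ‖sg β P 0‖ = s := by rw [hsg, Complex.norm_real, Real.norm_of_nonneg hs0]
  rw [hna] at har
  constructor
  · unfold VV
    refine mul_nonneg (by positivity) ?_
    refine intervalIntegral.integral_nonneg (by positivity) fun t _ => ?_
    exact add_nonneg (add_nonneg (sp_nonneg hR h0 _) (sp_nonneg hR h0 _)) (sp_nonneg hR h0 _)
  · have hX0 : 0 ≤ 2 * ∑' n : ℕ, (((n : ℝ) + 3) ^ 2 - 1) * ‖hf K (n + 3)‖ ^ 2 :=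
      mul_nonneg (by norm_num) (tsum_nonneg fun n => mul_nonneg (hden n).le (sq_nonneg _))
    have hY0 : 0 ≤ 2 * ∑' n : ℕ, ‖sg β P (n + 3)‖ ^ 2 / (((n : ℝ) + 3) ^ 2 - 1) :=
      mul_nonneg (by norm_num) (tsum_nonneg fun n => div_nonneg (sq_nonneg _) (hden n).le)
    have hfin := aczel ha0 hs0 hX0 hY0 hcs ENNReal.toReal_nonneg hpi har
    have e4 : a * s + (VV K β P - a * s) = VV K β P := by ring
    rw [e4] at hfin
    unfold FM
    rw [hns]
    exact hfin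

end Pool.Agent.Helper29.RC
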